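import Pool.Agent.J4H84.TH.Jobs

/-!
# Job INF of project TH (helper84): `H` is not representation-finite
-/

set_option autoImplicit false

namespace Pool.Agent.J4H41.TH

open Pool.Agent.J4H84.TH

universe u

section
variable {k : Type u} [Field k]

/-- The matrices of the module `M_c`. -/
def sysM (c : k) : Sys (Matrix (Fin 4) (Fin 4) k) where
  x := !![0, 0, 0, 0; 1, 0, 0, 0; 0, 0, 0, 0; 0, 0, 1, 0]
  y := !![0, 0, 0, 0; 0, 0, 1, 0; 0, 0, 0, 0; c, 0, 0, 0]
  g := !![1, 0, 0, 0; 0, -1, 0, 0; 0, 0, -1, 0; 0, 0, 0, 1]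
  l := !![1, 0, 0, 0; 0, -1, 0, 0; 0, 0, 1, 0; 0, 0, 0, -1]
  gg := by ext i j; fin_cases i <;> fin_cases j <;> simp [Matrix.mul_apply, Fin.sum_univ_four]
  ll := by ext i j; fin_cases i <;> fin_cases j <;> simp [Matrix.mul_apply, Fin.sum_univ_four]
  gl := by ext i j; fin_cases i <;> fin_cases j <;> simp [Matrix.mul_apply, Fin.sum_univ_four]
  gx := by ext i j; fin_cases i <;> fin_cases j <;> simp [Matrix.mul_apply, Fin.sum_univ_four]
  lx := by ext i j; fin_cases i <;> fin_cases j <;> simp [Matrix.mul_apply, Fin.sum_univ_four]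
  gy := by ext i j; fin_cases i <;> fin_cases j <;> simp [Matrix.mul_apply, Fin.sum_univ_four]
  ly := by ext i j; fin_cases i <;> fin_cases j <;> simp [Matrix.mul_apply, Fin.sum_univ_four]
  xx := by ext i j; fin_cases i <;> fin_cases j <;> simp [Matrix.mul_apply, Fin.sum_univ_four]
  yy := by ext i j; fin_cases i <;> fin_cases j <;> simp [Matrix.mul_apply, Fin.sum_univ_four]
  zz := by ext i j; fin_cases i <;> fin_cases j <;> simp [Matrix.mul_apply, Fin.sum_univ_four]

/-- The module `M_c`. -/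
noncomputable def Mc (c : k) : FRep k (H k) where
  V := Fin 4 → k
  ρ := (Matrix.toLinAlgEquiv' (R := k)).toAlgHom.comp (lift (sysM c))

lemma rho_gen (c : k) (a : Gen) (v : Fin 4 → k) :
    (Mc c).ρ (gen k a) v = ((sysM c).val a).mulVec v := by
  have h : (Mc c).ρ (gen k a) = Matrix.toLinAlgEquiv' ((sysM c).val a) :=
    congrArg (Matrix.toLinAlgEquiv' (R := k)) (lift_gen (sysM c) a)
  rw [h]
  rfl

lemma rho_x (c : k) (v : Fin 4 → k) : (Mc c).ρ (X k) v = ![0, v 0, 0, v 2] := by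
  refine (rho_gen c _ v).trans ?_
  funext i
  fin_cases i <;> simp [Sys.val, sysM, Matrix.mulVec, dotProduct, Fin.sum_univ_four]

lemma rho_y (c : k) (v : Fin 4 → k) : (Mc c).ρ (Y k) v = ![0, v 2, 0, c * v 0] := by
  refine (rho_gen c _ v).trans ?_
  funext i
  fin_cases i <;> simp [Sys.val, sysM, Matrix.mulVec, dotProduct, Fin.sum_univ_four]

lemma rho_g (c : k) (v : Fin 4 → k) : (Mc c).ρ (G k) v = ![v 0, -v 1, -v 2, v 3] := by
  refine (rho_gen c _ v).trans ?_
  funext i
  fin_cases i <;> simp [Sys.val, sysM, Matrix.mulVec, dotProduct, Fin.sum_univ_four]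

lemma rho_l (c : k) (v : Fin 4 → k) : (Mc c).ρ (L k) v = ![v 0, -v 1, v 2, -v 3] := by
  refine (rho_gen c _ v).trans ?_
  funext i
  fin_cases i <;> simp [Sys.val, sysM, Matrix.mulVec, dotProduct, Fin.sum_univ_four]

lemma neg_self_zero (h2 : (2 : k) ≠ 0) {a : k} (h : a = -a) : a = 0 := by
  have : 2 * a = 0 := by linear_combination h
  exact (mul_eq_zero.1 this).resolve_left h2

/-- The homomorphisms between the `M_c` are scalars. -/
lemma hom_scalar (h2 : (2 : k) ≠ 0) (c d : k) (f : (Fin 4 → k) →ₗ[k] (Fin 4 → k))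
    (hf : Equi (Mc c) (Mc d) f) : ∃ p : k, (∀ v, f v = p • v) ∧ c * p = d * p := by
  have hx : ∀ v : Fin 4 → k, f ![0, v 0, 0, v 2] = ![0, f v 0, 0, f v 2] := by
    intro v
    exact (congrArg f (rho_x c v)).symm.trans ((hf (X k) v).trans (rho_x d (f v)))
  have hy : ∀ v : Fin 4 → k, f ![0, v 2, 0, c * v 0] = ![0, f v 2, 0, d * f v 0] := by
    intro v
    exact (congrArg f (rho_y c v)).symm.trans ((hf (Y k) v).trans (rho_y d (f v)))
  have hg : ∀ v : Fin 4 → k, f ![v 0, -v 1, -v 2, v 3] = ![f v 0, -f v 1, -f v 2, f v 3] := by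
    intro v
    exact (congrArg f (rho_g c v)).symm.trans ((hf (G k) v).trans (rho_g d (f v)))
  have hl : ∀ v : Fin 4 → k, f ![v 0, -v 1, v 2, -v 3] = ![f v 0, -f v 1, f v 2, -f v 3] := by
    intro v
    exact (congrArg f (rho_l c v)).symm.trans ((hf (L k) v).trans (rho_l d (f v)))
  obtain ⟨p, hp⟩ : ∃ p, p = f ![1, 0, 0, 0] 0 := ⟨_, rfl⟩
  -- the image of `z₀`
  have e0 : f ![1, 0, 0, 0] = ![p, 0, 0, 0] := by
    have a1 := hg ![1, 0, 0, 0]
    have a2 := hl ![1, 0, 0, 0]
    simp only [Matrix.cons_val_zero, Matrix.cons_val_one, Matrix.cons_val, neg_zero] at a1 a2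
    funext i
    fin_cases i
    · exact hp.symm
    · exact neg_self_zero h2 (congrFun a1 1)
    · exact neg_self_zero h2 (congrFun a1 2)
    · exact neg_self_zero h2 (congrFun a2 3)
  -- the image of `z₁ = x z₀`
  have e1 : f ![0, 1, 0, 0] = ![0, p, 0, 0] := by
    have a1 := hx ![1, 0, 0, 0]
    rw [e0] at a1
    simpa using a1
  -- the image of `z₂`
  obtain ⟨q, hq⟩ : ∃ q, q = f ![0, 0, 1, 0] 2 := ⟨_, rfl⟩
  have e2 : f ![0, 0, 1, 0] = ![0, 0, q, 0] := by
    have a1 := hg ![0, 0, 1, 0]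
    have a2 := hl ![0, 0, 1, 0]
    have hneg : f ![0, 0, -1, 0] = - f ![0, 0, 1, 0] := by
      rw [← map_neg]
      congr 1
      funext i
      fin_cases i <;> simp
    simp only [Matrix.cons_val_zero, Matrix.cons_val_one, Matrix.cons_val, neg_zero] at a1 a2
    rw [hneg] at a1
    funext i
    fin_cases i
    · have := congrFun a1 0
      simp only [Pi.neg_apply, Matrix.cons_val_zero] at this
      exact neg_self_zero h2 this.symm
    · exact neg_self_zero h2 (congrFun a2 1)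
    · exact hq.symm
    · exact neg_self_zero h2 (congrFun a2 3)
  have e3 : f ![0, 0, 0, 1] = ![0, 0, 0, q] := by
    have a1 := hx ![0, 0, 1, 0]
    rw [e2] at a1
    simpa using a1
  have hpq : q = p := by
    have a1 := hy ![0, 0, 1, 0]
    rw [e2] at a1
    have a2 : f ![0, 1, 0, 0] = ![0, q, 0, 0] := by simpa using a1
    rw [e1] at a2
    have := congrFun a2 1
    simpa using this.symm
  subst hpq
  refine ⟨q, fun v => ?_, ?_⟩
  · have hv : v = v 0 • ![1, 0, 0, 0] + v 1 • ![0, 1, 0, 0] + v 2 • ![0, 0, 1, 0] +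
        v 3 • ![0, 0, 0, 1] := by
      funext i
      fin_cases i <;> simp
    conv_lhs => rw [hv]
    rw [map_add, map_add, map_add, map_smul, map_smul, map_smul, map_smul, e0, e1, e2, e3]
    funext i
    fin_cases i <;> simp [mul_comm]
  · have a1 := hy ![1, 0, 0, 0]
    rw [e0] at a1
    have a2 : f ![0, 0, 0, c] = ![0, 0, 0, d * q] := by simpa using a1
    have a3 : f ![0, 0, 0, c] = ![0, 0, 0, c * q] := by
      have : (![0, 0, 0, c] : Fin 4 → k) = c • ![0, 0, 0, 1] := by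
        funext i
        fin_cases i <;> simp
      rw [this, map_smul, e3]
      funext i
      fin_cases i <;> simp
    rw [a2] at a3
    have := congrFun a3 3
    simpa using this.symm

lemma indec_Mc (h2 : (2 : k) ≠ 0) (c : k) : Indec (Mc c) := by
  refine ⟨inferInstanceAs (Nontrivial (Fin 4 → k)), fun e he hid => ?_⟩
  obtain ⟨p, hp, -⟩ := hom_scalar h2 c c e he
  have h : p • p • (![1, 0, 0, 0] : Fin 4 → k) = p • ![1, 0, 0, 0] := by
    have h0 := hid ![1, 0, 0, 0]
    have h1 : e ![1, 0, 0, 0] = p • (![1, 0, 0, 0] : Fin 4 → k) := hp _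
    have h4 : e (p • (![1, 0, 0, 0] : Fin 4 → k)) = p • p • (![1, 0, 0, 0] : Fin 4 → k) := hp _
    exact h4.symm.trans ((congrArg e h1).symm.trans (h0.trans h1))
  have h1 := congrFun h 0
  simp only [Pi.smul_apply, Matrix.cons_val_zero, smul_eq_mul, mul_one] at h1
  have h3 : p * (p - 1) = 0 := by linear_combination h1
  rcases mul_eq_zero.1 h3 with h4 | h4
  · left
    intro v
    refine (hp v).trans ?_
    rw [h4]
    exact zero_smul k _
  · right
    intro v
    refine (hp v).trans ?_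
    rw [sub_eq_zero.1 h4]
    exact one_smul k _

end

lemma iso_trans {k : Type u} [Field k] {c d : k} {N : FRep k (H k)} (h1 : Iso (Mc c) N)
    (h2 : Iso (Mc d) N) : ∃ f : (Fin 4 → k) →ₗ[k] (Fin 4 → k), Function.Injective f ∧
      Equi (Mc c) (Mc d) f := by
  obtain ⟨e1, he1⟩ := h1
  obtain ⟨e2, he2⟩ := h2
  refine ⟨(e1.trans e2.symm).toLinearMap, (e1.trans e2.symm).injective, fun a v => ?_⟩
  change e2.symm (e1 ((Mc c).ρ a v)) = (Mc d).ρ a (e2.symm (e1 v))
  rw [LinearEquiv.symm_apply_eq, he1, he2]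
  congr 1
  exact (e2.apply_symm_apply _).symm

theorem t_INF : S_INF.{u} := by
  intro k _ _ h2 hfin
  obtain ⟨E, hE, h⟩ := hfin
  choose N hN hiso using fun c : k => h (Mc c) (indec_Mc h2 c)
  have : Infinite k := IsAlgClosed.instInfinite
  have : Finite E := hE
  obtain ⟨c, d, hcd, hne⟩ := Finite.exists_ne_map_eq_of_infinite (fun c : k => (⟨N c, hN c⟩ : E))
  have hN' : N c = N d := congrArg Subtype.val hne
  obtain ⟨f, hf, hE⟩ := iso_trans (hiso c) (hN' ▸ hiso d)
  obtain ⟨p, hp, hpp⟩ := hom_scalar h2 c d f hE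
  have hp0 : p ≠ 0 := by
    rintro rfl
    have h3 : f ![1, 0, 0, 0] = f 0 := by rw [hp, hp]; simp
    have h4 := congrFun (hf h3) 0
    simp at h4
  exact hcd (mul_right_cancel₀ hp0 hpp)

end Pool.Agent.J4H41.TH
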