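import Pool.Agent.J4H84.TH.Jobs

/-!
# Job REL of project TH (helper84): the splitting lemma for a linear relation
-/

set_option autoImplicit false

namespace Pool.Agent.J4H41.TH

open Pool.Agent.J4H84.TH

universe u

section
variable {k : Type u} [Field k] {V Q : Type u} [AddCommGroup V] [Module k V] [AddCommGroup Q]
  [Module k Q]

lemma desc {P : ℕ → Prop} (M : ℕ) (h : P M) (hs : ∀ m, P (m + 1) → P m) : P 0 := by
  induction M with
  | zero => exact h
  | succ m ih => exact ih (hs m h)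

/-- A linear choice. -/
lemma lin_choice (P : Submodule k (Q × V)) (h : ∀ q, ∃ a, (q, a) ∈ P) :
    ∃ s : Q →ₗ[k] V, ∀ q, (q, s q) ∈ P := by
  obtain ⟨r, hr⟩ := LinearMap.exists_rightInverse_of_surjective
    ((LinearMap.fst k Q V).comp P.subtype) (LinearMap.range_eq_top.2 (by
      intro q
      obtain ⟨a, ha⟩ := h q
      exact ⟨⟨(q, a), ha⟩, rfl⟩))
  refine ⟨(LinearMap.snd k Q V).comp (P.subtype.comp r), fun q => ?_⟩
  have h1 : ((r q : P) : Q × V).1 = q := LinearMap.congr_fun hr q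
  have h2 : (q, ((r q : P) : Q × V).2) = ((r q : P) : Q × V) := Prod.ext h1.symm rfl
  change (q, ((r q : P) : Q × V).2) ∈ P
  rw [h2]
  exact (r q).2

/-- A linear extension of a single-valued relation. -/
lemma lin_ext (P : Submodule k (V × Q)) (h : ∀ y, ((0 : V), y) ∈ P → y = 0) :
    ∃ g : V →ₗ[k] Q, ∀ v y, (v, y) ∈ P → g v = y := by
  obtain ⟨l, hl⟩ := LinearMap.exists_leftInverse_of_injective
    ((LinearMap.fst k V Q).comp P.subtype) (by
      rw [LinearMap.ker_eq_bot']
      rintro ⟨⟨v, y⟩, hv⟩ h0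
      have h1 : v = 0 := h0
      subst h1
      have h2 := h y hv
      subst h2
      rfl)
  refine ⟨(LinearMap.snd k V Q).comp (P.subtype.comp l), fun v y hv => ?_⟩
  have h1 : l v = ⟨(v, y), hv⟩ := LinearMap.congr_fun hl ⟨(v, y), hv⟩
  change ((l v : P) : V × Q).2 = y
  rw [h1]

lemma mem_relApp {S : Submodule k (V × V)} {W : Submodule k V} {b : V} :
    b ∈ relApp S W ↔ ∃ a ∈ W, (b, a) ∈ S := by
  simp only [relApp, Submodule.mem_map, Submodule.mem_inf, Submodule.mem_comap,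
    LinearMap.fst_apply, LinearMap.snd_apply, Prod.exists]
  constructor
  · rintro ⟨b', a, ⟨h1, h2⟩, rfl⟩
    exact ⟨a, h2, h1⟩
  · rintro ⟨a, h1, h2⟩
    exact ⟨b, a, ⟨h2, h1⟩, rfl⟩

lemma relApp_mono (S : Submodule k (V × V)) {W W' : Submodule k V} (h : W ≤ W') :
    relApp S W ≤ relApp S W' := by
  intro b hb
  rw [mem_relApp] at hb ⊢
  obtain ⟨a, h1, h2⟩ := hb
  exact ⟨a, h h1, h2⟩

lemma bot_mono (S : Submodule k (V × V)) : Monotone fun m => relIter S m ⊥ := by
  refine monotone_nat_of_le_succ fun m => ?_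
  induction m with
  | zero => exact bot_le
  | succ m ih => exact relApp_mono S ih

lemma top_anti (S : Submodule k (V × V)) : Antitone fun m => relIter S m ⊤ := by
  refine antitone_nat_of_succ_le fun m => ?_
  induction m with
  | zero => exact le_top
  | succ m ih => exact relApp_mono S ih

lemma bot_le_top (S : Submodule k (V × V)) (m : ℕ) : relIter S m ⊥ ≤ relIter S m ⊤ := by
  induction m with
  | zero => exact bot_le
  | succ m ih => exact relApp_mono S ih

end

theorem t_REL : S_REL.{u} := by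
  intro k V _ _ _ _ S hS
  obtain ⟨n1, h1⟩ := WellFoundedGT.monotone_chain_condition
    (⟨fun m => relIter S m ⊥, bot_mono S⟩ : ℕ →o Submodule k V)
  obtain ⟨n2, h2⟩ := WellFoundedLT.antitone_chain_condition (top_anti S)
  obtain ⟨M, hM⟩ : ∃ M, M = max n1 n2 := ⟨_, rfl⟩
  obtain ⟨Xp, hXp⟩ : ∃ X, X = relIter S M ⊤ := ⟨_, rfl⟩
  obtain ⟨Xm, hXm⟩ : ∃ X, X = relIter S M ⊥ := ⟨_, rfl⟩
  have hSp : relApp S Xp = Xp := by
    have e1 := h2 M (by omega)
    have e2 := h2 (M + 1) (by omega)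
    rw [hXp]
    exact e2.symm.trans e1
  have hSm : relApp S Xm = Xm := by
    have e1 := h1 M (by omega)
    have e2 := h1 (M + 1) (by omega)
    rw [hXm]
    exact e2.symm.trans e1
  have hle : Xm ≤ Xp := by
    rw [hXm, hXp]
    exact bot_le_top S M
  have hne : Xm ≠ Xp := by
    rw [hXm, hXp]
    exact hS M
  -- the quotient
  let N : Submodule k Xp := Xm.comap Xp.subtype
  let Q := Xp ⧸ N
  let p : Xp →ₗ[k] Q := N.mkQ
  have hp : Function.Surjective p := N.mkQ_surjective
  have hp0 : ∀ x : Xp, p x = 0 ↔ (x : V) ∈ Xm := fun x => Submodule.Quotient.mk_eq_zero N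
  have hpapp : ∀ {b : V}, b ∈ Xp → ∃ a : Xp, (b, (a : V)) ∈ S := by
    intro b hb
    rw [← hSp, mem_relApp] at hb
    obtain ⟨a, h3, h4⟩ := hb
    exact ⟨⟨a, h3⟩, h4⟩
  have happ : ∀ {a b : V}, a ∈ Xp → (b, a) ∈ S → b ∈ Xp := by
    intro a b ha hb
    rw [← hSp, mem_relApp]
    exact ⟨a, ha, hb⟩
  have happm : ∀ {a b : V}, a ∈ Xm → (b, a) ∈ S → b ∈ Xm := by
    intro a b ha hb
    rw [← hSm, mem_relApp]
    exact ⟨a, ha, hb⟩
  -- the relation on the quotient
  let T : Submodule k (Q × Q) :=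
    (S.comap (LinearMap.prodMap Xp.subtype Xp.subtype)).map (LinearMap.prodMap p p)
  have hT : ∀ {a b : Xp}, ((b : V), (a : V)) ∈ S → (p b, p a) ∈ T := by
    intro a b h
    exact ⟨(b, a), h, rfl⟩
  have hT' : ∀ {y x : Q}, (y, x) ∈ T → ∃ a b : Xp, ((b : V), (a : V)) ∈ S ∧ p b = y ∧ p a = x := by
    rintro y x ⟨⟨b, a⟩, h, h'⟩
    exact ⟨a, b, h, congrArg Prod.fst h', congrArg Prod.snd h'⟩
  have hT0 : ∀ y, (y, (0 : Q)) ∈ T → y = 0 := by
    intro y hy
    obtain ⟨a, b, h3, rfl, h5⟩ := hT' hy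
    rw [hp0] at h5 ⊢
    exact happm h5 h3
  obtain ⟨h, hh⟩ := lin_choice T (by
    intro y
    obtain ⟨b, rfl⟩ := hp y
    obtain ⟨a, ha⟩ := hpapp b.2
    exact ⟨p a, hT ha⟩)
  have hinj : Function.Injective h := by
    rw [injective_iff_map_eq_zero]
    intro y hy
    have := hh y
    rw [hy] at this
    exact hT0 y this
  let E := LinearEquiv.ofInjectiveEndo h hinj
  let A : Q ≃ₗ[k] Q := E.symm
  have hA : ∀ a b : Xp, ((b : V), (a : V)) ∈ S → A (p a) = p b := by
    intro a b hab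
    have e1 : h (A (p a)) = p a := E.apply_symm_apply (p a)
    have e2 := hh (A (p a))
    rw [e1] at e2
    have e3 := T.sub_mem e2 (hT hab)
    rw [Prod.mk_sub_mk, sub_self] at e3
    exact sub_eq_zero.1 (hT0 _ e3)
  -- the map `g`
  have hg : ∃ g : V →ₗ[k] Q, (∀ x : Xp, g x = p x) ∧
      ∀ b a, (b, a) ∈ S → a ∈ relIter S 0 ⊤ → g b = A (g a) := by
    refine desc (P := fun m => ∃ g : V →ₗ[k] Q, (∀ x : Xp, g x = p x) ∧
      ∀ b a, (b, a) ∈ S → a ∈ relIter S m ⊤ → g b = A (g a)) M ?_ ?_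
    · obtain ⟨g, hg⟩ := LinearMap.exists_extend p
      have hg' : ∀ x : Xp, g x = p x := fun x => LinearMap.congr_fun hg x
      refine ⟨g, hg', fun b a hab ha => ?_⟩
      rw [← hXp] at ha
      have hb := happ ha hab
      have := hA ⟨a, ha⟩ ⟨b, hb⟩ hab
      rw [← hg', ← hg'] at this
      exact this.symm
    · rintro m ⟨g, hg1, hg2⟩
      let G1 : Submodule k (V × Q) := (S ⊓ (relIter S m ⊤).comap (LinearMap.snd k V V)).map
        ((LinearMap.snd k V V).prod ((A.symm : Q →ₗ[k] Q).comp (g.comp (LinearMap.fst k V V))))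
      let G2 : Submodule k (V × Q) := (relIter S (m + 1) ⊤).map (LinearMap.id.prod g)
      obtain ⟨g', hg'⟩ := lin_ext (G1 ⊔ G2) (by
        intro y hy
        rw [Submodule.mem_sup] at hy
        obtain ⟨_, ⟨⟨b, a⟩, ⟨h3, h4⟩, rfl⟩, _, ⟨v, hv, rfl⟩, h5⟩ := hy
        have h6 : a + v = 0 := congrArg Prod.fst h5
        have h7 : A.symm (g b) + g v = y := congrArg Prod.snd h5
        have h8 : a = -v := eq_neg_of_add_eq_zero_left h6
        have h9 : a ∈ relIter S (m + 1) ⊤ := by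
          rw [h8]
          exact neg_mem hv
        have h10 := hg2 b a h3 h9
        rw [h10, LinearEquiv.symm_apply_apply, ← map_add, h6, map_zero] at h7
        exact h7.symm)
      have e1 : ∀ v ∈ relIter S (m + 1) ⊤, g' v = g v := by
        intro v hv
        exact hg' v (g v) (Submodule.mem_sup_right ⟨v, hv, rfl⟩)
      refine ⟨g', fun x => ?_, fun b a hab ha => ?_⟩
      · rw [e1, hg1]
        have hx : (x : V) ∈ relIter S M ⊤ := hXp ▸ x.2
        by_cases hm : m + 1 ≤ M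
        · exact top_anti S hm hx
        · have e3 := h2 (m + 1) (by omega)
          have e4 := h2 M (by omega)
          have e5 : relIter S (m + 1) ⊤ = relIter S M ⊤ := e3.symm.trans e4
          rw [e5]
          exact hx
      · have e2 : g' a = A.symm (g b) :=
          hg' a _ (Submodule.mem_sup_left ⟨(b, a), ⟨hab, ha⟩, rfl⟩)
        have e3 : b ∈ relIter S (m + 1) ⊤ := mem_relApp.2 ⟨a, ha, hab⟩
        rw [e1 b e3, e2, LinearEquiv.apply_symm_apply]
  -- the map `f`
  have hf : ∃ f : Q →ₗ[k] V, (∀ q, ∃ x : Xp, (x : V) = f q ∧ p x = q) ∧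
      ∀ q, ∃ a, (f (A q), a) ∈ S ∧ a - f q ∈ relIter S 0 ⊥ := by
    have hstab : ∀ m, relIter S m ⊥ ≤ Xm := by
      intro m
      by_cases hm : m ≤ M
      · rw [hXm]
        exact bot_mono S hm
      · have e3 := h1 m (by omega)
        have e4 := h1 M (by omega)
        have e5 : relIter S m ⊥ = relIter S M ⊥ := e3.symm.trans e4
        rw [e5, hXm]
    refine desc (P := fun m => ∃ f : Q →ₗ[k] V, (∀ q, ∃ x : Xp, (x : V) = f q ∧ p x = q) ∧
      ∀ q, ∃ a, (f (A q), a) ∈ S ∧ a - f q ∈ relIter S m ⊥) M ?_ ?_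
    · obtain ⟨s, hs⟩ := LinearMap.exists_rightInverse_of_surjective p (LinearMap.range_eq_top.2 hp)
      have hs' : ∀ q, p (s q) = q := fun q => LinearMap.congr_fun hs q
      refine ⟨Xp.subtype.comp s, fun q => ⟨s q, rfl, hs' q⟩, fun q => ?_⟩
      obtain ⟨a, ha⟩ := hpapp (s (A q)).2
      refine ⟨a, ha, ?_⟩
      have e1 := hA a (s (A q)) ha
      rw [hs'] at e1
      have e2 : p a = q := A.injective e1
      have e3 : p (a - s q) = 0 := by rw [map_sub, e2, hs', sub_self]
      rw [hp0] at e3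
      rw [← hXm]
      exact e3
    · rintro m ⟨f, hf1, hf2⟩
      let P : Submodule k (Q × V) :=
        (S.comap ((f.comp ((A : Q →ₗ[k] Q).comp (LinearMap.fst k Q V))).prod
          (LinearMap.snd k Q V))) ⊓
        ((relIter S (m + 1) ⊥).comap ((LinearMap.snd k Q V) - f.comp (LinearMap.fst k Q V)))
      obtain ⟨f', hf'⟩ := lin_choice P (by
        intro q
        obtain ⟨a, ha1, ha2⟩ := hf2 q
        exact ⟨a, ha1, ha2⟩)
      have e1 : ∀ q, (f (A q), f' q) ∈ S := fun q => (hf' q).1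
      have e2 : ∀ q, f' q - f q ∈ relIter S (m + 1) ⊥ := fun q => (hf' q).2
      refine ⟨f', fun q => ?_, fun q => ?_⟩
      · obtain ⟨x, hx1, hx2⟩ := hf1 q
        have e3 := hstab _ (e2 q)
        have e4 : f' q ∈ Xp := by
          have : f' q = (f' q - f q) + x := by rw [hx1]; abel
          rw [this]
          exact Xp.add_mem (hle e3) x.2
        refine ⟨⟨f' q, e4⟩, rfl, ?_⟩
        have e5 : p (⟨f' q, e4⟩ - x) = 0 := by
          rw [hp0]
          change f' q - (x : V) ∈ Xm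
          rw [hx1]
          exact e3
        rw [map_sub, hx2, sub_eq_zero] at e5
        exact e5
      · have e3 := e2 (A q)
        have e4 : f' (A q) - f (A q) ∈ relApp S (relIter S m ⊥) := e3
        rw [mem_relApp] at e4
        obtain ⟨c, hc1, hc2⟩ := e4
        refine ⟨f' q + c, ?_, ?_⟩
        · have := S.add_mem (e1 q) hc2
          rw [Prod.mk_add_mk, add_sub_cancel] at this
          exact this
        · rw [add_sub_cancel_left]
          exact hc1
  obtain ⟨g, hg1, hg2⟩ := hg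
  obtain ⟨f, hf1, hf2⟩ := hf
  refine ⟨Q, inferInstance, inferInstance, A, f, g, inferInstance, ?_, fun q => ?_, fun b a hab =>
    hg2 b a hab trivial, fun q => ?_⟩
  · by_contra hnt
    rw [not_nontrivial_iff_subsingleton] at hnt
    apply hne
    refine le_antisymm hle fun x hx => ?_
    have : p ⟨x, hx⟩ = 0 := Subsingleton.elim _ _
    rwa [hp0] at this
  · obtain ⟨a, ha1, ha2⟩ := hf2 q
    have : a = f q := sub_eq_zero.1 ((Submodule.mem_bot k).1 ha2)
    rwa [this] at ha1
  · obtain ⟨x, hx1, hx2⟩ := hf1 q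
    rw [← hx1, hg1, hx2]

end Pool.Agent.J4H41.TH
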